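import Mathlib

namespace Pool.Agent.Results.MP_ecbb05_mp.No

open Set Filter Topology Real

/-- A finite metric graph; edge `e` is the interval `[0, len e]` running from `src e` to
`tgt e`. -/
structure MGraph (V E : Type) where
  src : E → V
  tgt : E → V
  len : E → ℝ
  len_pos : ∀ e, 0 < len e

variable {V E : Type} [Fintype E] [DecidableEq V]

/-- Number of edge ends at `v`. -/
def deg (Γ : MGraph V E) (v : V) : ℕ :=
  (Finset.univ.filter fun e => Γ.src e = v).card + (Finset.univ.filter fun e => Γ.tgt e = v).card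

/-- Connected, and every vertex is a boundary vertex (degree one) or has degree at least 3. -/
def Standard (Γ : MGraph V E) : Prop :=
  (∀ u w, Relation.EqvGen (fun a b => ∃ e, Γ.src e = a ∧ Γ.tgt e = b) u w) ∧
    ∀ v, deg Γ v = 1 ∨ 3 ≤ deg Γ v

/-- `-f'' = k² f` on every edge, with the Neumann-Kirchhoff vertex conditions. -/
def Solves (Γ : MGraph V E) (k : ℝ) (f : E → ℝ → ℝ) : Prop :=
  (∀ e, ContDiff ℝ 2 (f e)) ∧
  (∀ e, ∀ t ∈ Icc 0 (Γ.len e), -deriv (deriv (f e)) t = k ^ 2 * f e t) ∧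
  (∃ val : V → ℝ, ∀ e, f e 0 = val (Γ.src e) ∧ f e (Γ.len e) = val (Γ.tgt e)) ∧
  ∀ v, ∑ e with Γ.src e = v, deriv (f e) 0 + ∑ e with Γ.tgt e = v, -deriv (f e) (Γ.len e) = 0

/-- `f` is a generic eigenfunction for the eigenvalue `k²`: the eigenvalue is simple, `f`
vanishes at no vertex, no outgoing derivative at an interior vertex vanishes. -/
def Generic (Γ : MGraph V E) (k : ℝ) (f : E → ℝ → ℝ) : Prop :=
  0 ≤ k ∧ Solves Γ k f ∧ (∃ e, ∃ t ∈ Icc 0 (Γ.len e), f e t ≠ 0) ∧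
  (∀ g, Solves Γ k g → ∃ c : ℝ, ∀ e, ∀ t ∈ Icc 0 (Γ.len e), g e t = c * f e t) ∧
  (∀ e, f e 0 ≠ 0 ∧ f e (Γ.len e) ≠ 0) ∧
  ∀ e, (deg Γ (Γ.src e) ≠ 1 → deriv (f e) 0 ≠ 0) ∧
    (deg Γ (Γ.tgt e) ≠ 1 → deriv (f e) (Γ.len e) ≠ 0)

/-- Interior points of the edge `e` where `f' = 0`. -/
def crit (Γ : MGraph V E) (f : E → ℝ → ℝ) (e : E) : Set ℝ :=
  {t | t ∈ Ioo 0 (Γ.len e) ∧ deriv (f e) t = 0}

/-- Vertices joined along edges free of critical points. -/
def Reach (Γ : MGraph V E) (f : E → ℝ → ℝ) (v w : V) : Prop :=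
  Relation.EqvGen (fun a b => ∃ e, Γ.src e = a ∧ Γ.tgt e = b ∧ crit Γ f e = ∅) v w

open Classical in
/-- Total length of the Neumann domain containing the vertex `v`: whole edges free of critical
points, and the end segments (up to the nearest critical point) of the other edges. -/
noncomputable def domLen (Γ : MGraph V E) (f : E → ℝ → ℝ) (v : V) : ℝ :=
  ∑ e, if crit Γ f e = ∅ then (if Reach Γ f v (Γ.src e) then Γ.len e else 0) else
    (if Reach Γ f v (Γ.src e) then sInf (crit Γ f e) else 0) +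
    (if Reach Γ f v (Γ.tgt e) then Γ.len e - sSup (crit Γ f e) else 0)

/-- Wavelength capacity. -/
noncomputable def rho (Γ : MGraph V E) (k : ℝ) (f : E → ℝ → ℝ) (v : V) : ℝ :=
  k * domLen Γ f v / π

/-- The wave numbers `k_n`, `n` generic. -/
def Gen (Γ : MGraph V E) : Set ℝ := {k | ∃ f, Generic Γ k f}

/-- The wave numbers `k_n`, `n` generic, whose capacity at `v` lies in `A`. -/
def GenIn (Γ : MGraph V E) (v : V) (A : Set ℝ) : Set ℝ :=
  {k | ∃ f, Generic Γ k f ∧ rho Γ k f v ∈ A}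

/-! ### proofs -/

lemma const_of (u : ℝ → ℝ) (l : ℝ) (h : ∀ t ∈ Icc 0 l, HasDerivAt u 0 t) :
    ∀ t ∈ Icc 0 l, u t = u 0 :=
  constant_of_has_deriv_right_zero (fun t ht => (h t ht).continuousAt.continuousWithinAt)
    (fun t ht => (h t (Ico_subset_Icc_self ht)).hasDerivWithinAt)

lemma derivs {f : ℝ → ℝ} (hf : ContDiff ℝ 2 f) (t : ℝ) :
    HasDerivAt f (deriv f t) t ∧ HasDerivAt (deriv f) (deriv (deriv f) t) t := by
  refine ⟨(hf.differentiable (by norm_num) t).hasDerivAt, ?_⟩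
  have : ContDiff ℝ 1 (deriv f) := by
    have h : ContDiff ℝ (1 + 1) f := by simpa [one_add_one_eq_two] using hf
    exact h.deriv'
  exact (this.differentiable (by norm_num) t).hasDerivAt

lemma ode {f : ℝ → ℝ} {k l : ℝ} (hk : 0 < k) (hf : ContDiff ℝ 2 f)
    (h : ∀ t ∈ Icc 0 l, -deriv (deriv f) t = k ^ 2 * f t) :
    ∀ t ∈ Icc 0 l, k * f t = k * f 0 * cos (k * t) + deriv f 0 * sin (k * t) ∧
      deriv f t = -k * f 0 * sin (k * t) + deriv f 0 * cos (k * t) := by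
  have hc : ∀ t, HasDerivAt (fun t => cos (k * t)) (-sin (k * t) * k) t := fun t => by
    simpa using ((hasDerivAt_id t).const_mul k).cos
  have hs : ∀ t, HasDerivAt (fun t => sin (k * t)) (cos (k * t) * k) t := fun t => by
    simpa using ((hasDerivAt_id t).const_mul k).sin
  have h1 := const_of (fun t => k * f t * cos (k * t) - deriv f t * sin (k * t)) l (by
    intro t ht
    have := ((((derivs hf t).1.const_mul k).mul (hc t)).sub ((derivs hf t).2.mul (hs t)))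
    refine this.congr_deriv ?_
    have e := h t ht
    linear_combination (sin (k * t)) * e)
  have h2 := const_of (fun t => k * f t * sin (k * t) + deriv f t * cos (k * t)) l (by
    intro t ht
    have := ((((derivs hf t).1.const_mul k).mul (hs t)).add ((derivs hf t).2.mul (hc t)))
    refine this.congr_deriv ?_
    have e := h t ht
    linear_combination (-cos (k * t)) * e)
  intro t ht
  have e1 := h1 t ht
  have e2 := h2 t ht
  simp only [mul_zero, cos_zero, sin_zero, mul_one, sub_zero, zero_add] at e1 e2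
  have e3 := sin_sq_add_cos_sq (k * t)
  constructor
  · linear_combination cos (k * t) * e1 + sin (k * t) * e2 - k * f t * e3
  · linear_combination (-sin (k * t)) * e1 + cos (k * t) * e2 - deriv f t * e3

lemma ode0 {f : ℝ → ℝ} {l : ℝ} (hl : 0 < l) (hf : ContDiff ℝ 2 f)
    (h : ∀ t ∈ Icc 0 l, -deriv (deriv f) t = 0 ^ 2 * f t) (h0 : f l = f 0) : deriv f 0 = 0 := by
  have h1 := const_of (deriv f) l (by
    intro t ht
    have := (derivs hf t).2
    have e := h t ht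
    rwa [show deriv (deriv f) t = 0 by linarith] at this)
  have h2 := const_of (fun t => f t - deriv f 0 * t) l (by
    intro t ht
    have := (derivs hf t).1.sub ((hasDerivAt_id t).const_mul (deriv f 0))
    refine this.congr_deriv ?_
    rw [h1 t ht]; ring) l ⟨hl.le, le_rfl⟩
  have : deriv f 0 * l = 0 := by linarith
  exact (mul_eq_zero.1 this).resolve_right hl.ne'

/-- the figure-eight graph -/
noncomputable def Γ8 : MGraph Unit (Fin 2) where
  src _ := ()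
  tgt _ := ()
  len := ![1, √2]
  len_pos e := by fin_cases e <;> simp

lemma deg8 (v : Unit) : deg Γ8 v = 4 := by
  simp [deg, Γ8]

lemma irr (k : ℝ) (hk : 0 < k) (h1 : sin (k * 1) = 0) (h2 : sin (k * √2) = 0) : False := by
  obtain ⟨n, hn⟩ := sin_eq_zero_iff.1 h1
  obtain ⟨m, hm⟩ := sin_eq_zero_iff.1 h2
  have hn0 : (n : ℝ) ≠ 0 := by
    intro h; rw [h] at hn; linarith
  apply irrational_sqrt_two
  refine ⟨m / n, ?_⟩
  push_cast
  field_simp
  have : (m : ℝ) * π = n * √2 * π := by rw [hm]; linear_combination (-√2) * hn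
  exact mul_right_cancel₀ pi_ne_zero this

lemma half {c d k a : ℝ} (h : k * c = k * c * cos (2 * a) + d * sin (2 * a)) (hs : sin a ≠ 0) :
    d * cos a = k * c * sin a := by
  rw [sin_two_mul, cos_two_mul] at h
  apply mul_left_cancel₀ hs
  linear_combination (-1 / 2) * h - k * c * sin_sq_add_cos_sq a

lemma kirch {k : ℝ} {f : Fin 2 → ℝ → ℝ} (h : Solves Γ8 k f) :
    deriv (f 0) 0 + deriv (f 1) 0 - deriv (f 0) 1 - deriv (f 1) √2 = 0 := by
  have := h.2.2.2 ()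
  simp [Γ8, Fin.sum_univ_two] at this
  linarith

lemma vals {k : ℝ} {f : Fin 2 → ℝ → ℝ} (h : Solves Γ8 k f) (e : Fin 2) :
    f e 0 = f 0 0 ∧ f e (Γ8.len e) = f 0 0 := by
  obtain ⟨val, hv⟩ := h.2.2.1
  exact ⟨(hv e).1.trans (hv 0).1.symm, (hv e).2.trans (hv 0).1.symm⟩

lemma endp (e : Fin 2) : Γ8.len e ∈ Icc 0 (Γ8.len e) := ⟨(Γ8.len_pos e).le, le_rfl⟩

lemma gen_pos {k : ℝ} {f : Fin 2 → ℝ → ℝ} (h : Generic Γ8 k f) : 0 < k := by
  rcases h.1.lt_or_eq with hk | hk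
  · exact hk
  · subst hk
    exact ((h.2.2.2.2.2 0).1 (by rw [deg8]; norm_num) (ode0 (Γ8.len_pos 0) (h.2.1.1 0)
      (h.2.1.2.1 0) (vals h.2.1 0).2)).elim

lemma gen_sin {k : ℝ} {f : Fin 2 → ℝ → ℝ} (h : Generic Γ8 k f) (e : Fin 2) :
    sin (k * Γ8.len e / 2) ≠ 0 := by
  have hk := gen_pos h
  have hS := h.2.1
  have hc : f 0 0 ≠ 0 := (h.2.2.2.2.1 0).1
  have o0 := ode hk (hS.1 0) (hS.2.1 0) _ (endp 0)
  have o1 := ode hk (hS.1 1) (hS.2.1 1) _ (endp 1)
  rw [(vals hS 0).2] at o0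
  rw [(vals hS 1).2, (vals hS 1).1] at o1
  have hK := kirch hS
  have l0 : Γ8.len 0 = 1 := rfl
  have l1 : Γ8.len 1 = √2 := rfl
  rw [l0] at o0
  rw [l1] at o1
  have aux : ∀ x : ℝ, sin (x / 2) = 0 → sin x = 0 ∧ cos x = 1 := by
    intro x hx
    have e : x = 2 * (x / 2) := by ring
    constructor
    · rw [e, sin_two_mul, hx]; ring
    · rw [e, cos_two_mul, cos_sq', hx]; ring
  have aux2 : ∀ c d s o : ℝ, c ≠ 0 → k * c = k * c * o + d * s → d = -k * c * s + d * o →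
      s = 0 := by
    intro c d s o hc e1 e2
    have : k * c * ((o - 1) ^ 2 + s ^ 2) = 0 := by linear_combination (1 - o) * e1 + s * e2
    have h3 := (mul_eq_zero.1 this).resolve_left (mul_ne_zero hk.ne' hc)
    nlinarith [sq_nonneg (o - 1), sq_nonneg s]
  intro hs
  fin_cases e
  · obtain ⟨s1, c1⟩ := aux _ hs
    change sin (k * 1) = 0 at s1
    change cos (k * 1) = 1 at c1
    rw [s1, c1] at o0
    exact irr k hk s1 (aux2 _ (deriv (f 1) 0) _ _ hc o1.1 (by linarith [o0.2, o1.2]))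
  · obtain ⟨s1, c1⟩ := aux _ hs
    change sin (k * √2) = 0 at s1
    change cos (k * √2) = 1 at c1
    rw [s1, c1] at o1
    exact irr k hk (aux2 _ (deriv (f 0) 0) _ _ hc o0.1 (by linarith [o0.2, o1.2])) s1

lemma sol_form {k : ℝ} (hk : 0 < k) {f : Fin 2 → ℝ → ℝ} (hS : Solves Γ8 k f) (e : Fin 2)
    (hs : sin (k * Γ8.len e / 2) ≠ 0) : ∀ t ∈ Icc 0 (Γ8.len e),
      f e t * cos (k * Γ8.len e / 2) = f 0 0 * cos (k * t - k * Γ8.len e / 2) ∧
      deriv (f e) t * cos (k * Γ8.len e / 2) = -k * f 0 0 * sin (k * t - k * Γ8.len e / 2) := by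
  have o := (ode hk (hS.1 e) (hS.2.1 e) _ (endp e)).1
  rw [(vals hS e).2, (vals hS e).1, show k * Γ8.len e = 2 * (k * Γ8.len e / 2) by ring] at o
  have h := half o hs
  intro t ht
  obtain ⟨o1, o2⟩ := ode hk (hS.1 e) (hS.2.1 e) t ht
  rw [(vals hS e).1] at o1 o2
  rw [cos_sub, sin_sub]
  constructor
  · apply mul_left_cancel₀ hk.ne'
    linear_combination cos (k * Γ8.len e / 2) * o1 + sin (k * t) * h
  · linear_combination cos (k * Γ8.len e / 2) * o2 + cos (k * t) * h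

lemma gen_cos {k : ℝ} {f : Fin 2 → ℝ → ℝ} (h : Generic Γ8 k f) (e : Fin 2) :
    cos (k * Γ8.len e / 2) ≠ 0 := by
  intro hc
  have := (sol_form (gen_pos h) h.2.1 e (gen_sin h e) 0 ⟨le_rfl, (Γ8.len_pos e).le⟩).2
  rw [hc] at this
  simp [(gen_pos h).ne', (h.2.2.2.2.1 0).1, gen_sin h e] at this

lemma gen_sum {k : ℝ} {f : Fin 2 → ℝ → ℝ} (h : Generic Γ8 k f) :
    sin (k * 1 / 2 + k * √2 / 2) = 0 := by
  have hk := gen_pos h
  have a0 := (sol_form hk h.2.1 0 (gen_sin h 0) 0 ⟨le_rfl, (Γ8.len_pos 0).le⟩).2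
  have a1 := (sol_form hk h.2.1 1 (gen_sin h 1) 0 ⟨le_rfl, (Γ8.len_pos 1).le⟩).2
  have b0 := (sol_form hk h.2.1 0 (gen_sin h 0) _ (endp 0)).2
  have b1 := (sol_form hk h.2.1 1 (gen_sin h 1) _ (endp 1)).2
  have l0 : Γ8.len 0 = 1 := rfl
  have l1 : Γ8.len 1 = √2 := rfl
  rw [l0] at a0 b0
  rw [l1] at a1 b1
  rw [show k * 1 - k * 1 / 2 = k * 1 / 2 by ring] at b0
  rw [show k * √2 - k * √2 / 2 = k * √2 / 2 by ring] at b1
  rw [mul_zero, zero_sub, sin_neg] at a0 a1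
  have hK := kirch h.2.1
  rw [sin_add]
  apply mul_left_cancel₀ (mul_ne_zero (mul_ne_zero two_ne_zero hk.ne') (h.2.2.2.2.1 0).1)
  linear_combination cos (k * 1 / 2) * cos (k * √2 / 2) * hK - cos (k * √2 / 2) * (a0 - b0)
    - cos (k * 1 / 2) * (a1 - b1)

lemma crit_calc {k l : ℝ} (hk : 0 < k) (hl : 0 < l) (hs : sin (k * l / 2) ≠ 0) (C : Set ℝ)
    (hC : ∀ t, t ∈ C ↔ t ∈ Ioo 0 l ∧ sin (k * t - k * l / 2) = 0) :
    ∃ (θ : ℝ) (n : ℤ), 0 < θ ∧ θ < π ∧ k * l / 2 = θ + n * π ∧ C ≠ ∅ ∧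
      k * (sInf C + (l - sSup C)) = 2 * θ := by
  obtain ⟨a, ha⟩ : ∃ a, a = k * l / 2 := ⟨_, rfl⟩
  rw [← ha] at hs hC ⊢
  have ha0 : 0 < a := by rw [ha]; positivity
  obtain ⟨n, hn⟩ : ∃ n : ℤ, n = ⌊a / π⌋ := ⟨_, rfl⟩
  have h1 : (n : ℝ) * π ≤ a := by
    rw [hn]; exact (le_div_iff₀ pi_pos).1 (Int.floor_le _)
  have h2 : a < (n + 1) * π := by
    rw [hn]; exact (div_lt_iff₀ pi_pos).1 (Int.lt_floor_add_one _)
  have h3 : (n : ℝ) * π ≠ a := fun h => hs (sin_eq_zero_iff.2 ⟨n, h⟩)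
  have h4 : (0 : ℝ) ≤ n := by
    have : 0 ≤ n := by rw [hn]; exact Int.floor_nonneg.2 (by positivity)
    exact_mod_cast this
  have h5 : (0 : ℝ) ≤ n * π := by positivity
  have hθ : 0 < a - n * π := sub_pos.2 (lt_of_le_of_ne h1 h3)
  have key : ∀ j : ℤ, (j : ℝ) * π < a → (j : ℝ) * π ≤ n * π := by
    intro j hj
    have : (j : ℝ) < n + 1 := lt_of_mul_lt_mul_right (hj.trans h2) pi_pos.le
    have : j < n + 1 := by exact_mod_cast this
    have : (j : ℝ) ≤ n := by exact_mod_cast (by omega : j ≤ n)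
    exact mul_le_mul_of_nonneg_right this pi_pos.le
  have hL : IsLeast C ((a - n * π) / k) := by
    refine ⟨(hC _).2 ⟨⟨by positivity, ?_⟩, ?_⟩, ?_⟩
    · rw [div_lt_iff₀ hk]; nlinarith
    · rw [mul_div_cancel₀ _ hk.ne']
      exact sin_eq_zero_iff.2 ⟨-n, by push_cast; ring⟩
    · intro t ht
      obtain ⟨⟨t0, _⟩, ht⟩ := (hC t).1 ht
      obtain ⟨j, hj⟩ := sin_eq_zero_iff.1 ht
      have := key (-j) (by push_cast; nlinarith [mul_pos hk t0])
      rw [div_le_iff₀ hk]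
      push_cast at this
      linarith
  have hG : IsGreatest C ((a + n * π) / k) := by
    refine ⟨(hC _).2 ⟨⟨by positivity, ?_⟩, ?_⟩, ?_⟩
    · rw [div_lt_iff₀ hk]; nlinarith
    · rw [mul_div_cancel₀ _ hk.ne']
      exact sin_eq_zero_iff.2 ⟨n, by ring⟩
    · intro t ht
      obtain ⟨⟨_, t0⟩, ht⟩ := (hC t).1 ht
      obtain ⟨j, hj⟩ := sin_eq_zero_iff.1 ht
      have := key j (by nlinarith [mul_lt_mul_of_pos_left t0 hk])
      rw [le_div_iff₀ hk]
      linarith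
  refine ⟨a - n * π, n, hθ, by linarith, by ring, Set.Nonempty.ne_empty ⟨_, hL.1⟩, ?_⟩
  rw [hL.csInf_eq, hG.csSup_eq]
  field_simp
  linarith

lemma gen_rho {k : ℝ} {f : Fin 2 → ℝ → ℝ} (h : Generic Γ8 k f) : rho Γ8 k f () = 2 := by
  have hk := gen_pos h
  have H : ∀ e, ∃ (θ : ℝ) (n : ℤ), 0 < θ ∧ θ < π ∧ k * Γ8.len e / 2 = θ + n * π ∧
      crit Γ8 f e ≠ ∅ ∧ k * (sInf (crit Γ8 f e) + (Γ8.len e - sSup (crit Γ8 f e))) = 2 * θ := by
    intro e
    apply crit_calc hk (Γ8.len_pos e) (gen_sin h e)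
    intro t
    refine and_congr_right fun ht => ?_
    have := (sol_form hk h.2.1 e (gen_sin h e) t (Ioo_subset_Icc_self ht)).2
    constructor
    · intro h0
      rw [h0] at this
      simpa [hk.ne', (h.2.2.2.2.1 0).1] using this
    · intro h0
      rw [h0] at this
      simpa [gen_cos h e] using this
  obtain ⟨θ0, n0, p0, q0, e0, c0, r0⟩ := H 0
  obtain ⟨θ1, n1, p1, q1, e1, c1, r1⟩ := H 1
  have hs := gen_sum h
  change k * 1 / 2 = _ at e0
  change k * √2 / 2 = _ at e1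
  rw [e0, e1] at hs
  obtain ⟨j, hj⟩ := sin_eq_zero_iff.1 hs
  have hsum : θ0 + θ1 = π := by
    have e : θ0 + θ1 = ((j - n0 - n1 : ℤ) : ℝ) * π := by push_cast; linarith
    have a1 : (0 : ℝ) < ((j - n0 - n1 : ℤ) : ℝ) :=
      (mul_pos_iff_of_pos_right pi_pos).1 (by rw [← e]; linarith)
    have a2 : ((j - n0 - n1 : ℤ) : ℝ) < 2 :=
      lt_of_mul_lt_mul_right (by rw [← e]; linarith) pi_pos.le
    have a3 : 0 < j - n0 - n1 := by exact_mod_cast a1
    have a4 : j - n0 - n1 < 2 := by exact_mod_cast a2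
    rw [e, show j - n0 - n1 = 1 by omega]; simp
  have hR : ∀ w, Reach Γ8 f () w := fun _ => Relation.EqvGen.refl _
  simp only [rho, domLen, Fin.sum_univ_two, if_neg c0, if_neg c1, if_pos (hR _)]
  rw [mul_add, r0, r1]
  field_simp
  linarith

noncomputable def κ (m : ℕ) : ℝ := 2 * π * m / (1 + √2)

lemma gen_sub {k : ℝ} (h : k ∈ Gen Γ8) : ∃ m, k = κ m := by
  obtain ⟨f, h⟩ := h
  obtain ⟨j, hj⟩ := sin_eq_zero_iff.1 (gen_sum h)
  have hk := gen_pos h
  have : (0 : ℝ) < j := (mul_pos_iff_of_pos_right pi_pos).1 (by rw [hj]; positivity)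
  have hj0 : 0 ≤ j := by exact_mod_cast this.le
  lift j to ℕ using hj0
  refine ⟨j, ?_⟩
  rw [κ, eq_div_iff (by positivity)]
  push_cast at hj
  linarith

lemma κ_gen (m : ℕ) (hm : 0 < m) : κ m ∈ Gen Γ8 := by
  obtain ⟨k, hk⟩ : ∃ k, k = κ m := ⟨_, rfl⟩
  rw [← hk]
  have hk0 : 0 < k := by rw [hk, κ]; positivity
  have hsum : k * 1 / 2 + k * √2 / 2 = m * π := by rw [hk, κ]; field_simp
  have hs2 : sin (k * √2) = -sin (k * 1) := by
    rw [show k * √2 = (m : ℝ) * (2 * π) - k * 1 by linarith, sin_nat_mul_two_pi_sub]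
  have hfull : ∀ e, sin (k * Γ8.len e) ≠ 0 := by
    intro e
    fin_cases e
    · intro h
      change sin (k * 1) = 0 at h
      exact irr k hk0 h (by rw [hs2, h, neg_zero])
    · intro h
      change sin (k * √2) = 0 at h
      exact irr k hk0 (by linarith) h
  have hsc : ∀ e, sin (k * Γ8.len e / 2) ≠ 0 ∧ cos (k * Γ8.len e / 2) ≠ 0 := by
    intro e
    have := hfull e
    rw [show k * Γ8.len e = 2 * (k * Γ8.len e / 2) by ring, sin_two_mul] at this
    exact ⟨fun h => this (by rw [h]; ring), fun h => this (by rw [h]; ring)⟩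
  obtain ⟨f, hf⟩ : ∃ f : Fin 2 → ℝ → ℝ,
      f = fun e t => cos (k * t - k * Γ8.len e / 2) / cos (k * Γ8.len e / 2) := ⟨_, rfl⟩
  have d1 : ∀ e, deriv (f e) = fun t => -sin (k * t - k * Γ8.len e / 2) * k /
      cos (k * Γ8.len e / 2) := by
    intro e; funext t
    rw [hf]
    apply HasDerivAt.deriv
    simpa using ((((hasDerivAt_id t).const_mul k).sub_const (k * Γ8.len e / 2)).cos).div_const
      (cos (k * Γ8.len e / 2))
  have d2 : ∀ e t, deriv (deriv (f e)) t = -(cos (k * t - k * Γ8.len e / 2) * k) * k /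
      cos (k * Γ8.len e / 2) := by
    intro e t
    rw [d1]
    apply HasDerivAt.deriv
    simpa using (((((hasDerivAt_id t).const_mul k).sub_const
      (k * Γ8.len e / 2)).sin).neg.mul_const k).div_const (cos (k * Γ8.len e / 2))
  have hh : ∀ e, k * Γ8.len e - k * Γ8.len e / 2 = k * Γ8.len e / 2 := fun e => by ring
  have v0 : ∀ e, f e 0 = 1 := fun e => by rw [hf]; simp [(hsc e).2]
  have v1 : ∀ e, f e (Γ8.len e) = 1 := fun e => by rw [hf]; simp only [hh]; simp [(hsc e).2]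
  refine ⟨f, hk0.le, ⟨fun e => by rw [hf]; fun_prop, ?_, ⟨fun _ => 1, fun e => ⟨v0 e, v1 e⟩⟩, ?_⟩,
    ⟨0, 0, ⟨le_rfl, (Γ8.len_pos 0).le⟩, by rw [v0]; norm_num⟩, ?_,
    fun e => by rw [v0, v1]; norm_num, ?_⟩
  · intro e t _
    rw [d2, hf]; ring
  · intro v
    have hz : sin (k * Γ8.len 0 / 2 + k * Γ8.len 1 / 2) = 0 := by
      change sin (k * 1 / 2 + k * √2 / 2) = 0
      rw [hsum, sin_nat_mul_pi]
    rw [sin_add] at hz
    simp only [Subsingleton.elim (Γ8.src _) v, Subsingleton.elim (Γ8.tgt _) v,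
      Finset.filter_true, Fin.sum_univ_two, d1, hh, mul_zero, zero_sub, sin_neg]
    have c0 := (hsc 0).2
    have c1 := (hsc 1).2
    field_simp
    linear_combination 2 * k * hz
  · intro g hg
    refine ⟨g 0 0, fun e t ht => ?_⟩
    have := (sol_form hk0 hg e (hsc e).1 t ht).1
    rw [hf]
    simp only
    rw [← mul_div_assoc, eq_div_iff (hsc e).2, this]
  · intro e
    have := hsc e
    constructor <;> intro _ <;> rw [d1] <;> simp only [hh] <;> simp [this.1, this.2, hk0.ne']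

lemma κ_mono : StrictMono κ := by
  intro a b hab
  have : (a : ℝ) < b := by exact_mod_cast hab
  unfold κ
  gcongr

lemma gen_fin (K : ℝ) : (Gen Γ8 ∩ Iic K).Finite := by
  apply ((Set.finite_Iic ⌈K⌉₊).image κ).subset
  rintro k ⟨hk, hK⟩
  obtain ⟨m, rfl⟩ := gen_sub hk
  refine ⟨m, ?_, rfl⟩
  have h2 : √2 < 2 := by rw [sqrt_lt' (by norm_num)]; norm_num
  have h3 : (m : ℝ) ≤ κ m := by
    rw [κ, le_div_iff₀ (by positivity)]
    have := pi_gt_three
    have : (0 : ℝ) ≤ m := by positivity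
    nlinarith
  have : (m : ℝ) ≤ ⌈K⌉₊ := h3.trans (le_trans hK (Nat.le_ceil K))
  exact_mod_cast this

theorem result : ∃ (V E : Type) (_ : Fintype V) (_ : Fintype E) (_ : DecidableEq V)
    (Γ : MGraph V E) (v : V) (x : ℝ), Standard Γ ∧ LinearIndependent ℚ Γ.len ∧ 3 ≤ deg Γ v ∧
    (Gen Γ).Infinite ∧ (∀ K, (Gen Γ ∩ Iic K).Finite) ∧
    (∀ k f, Generic Γ k f → rho Γ k f v = x) ∧
    ∀ ε > 0, Tendsto (fun K : ℝ => ((GenIn Γ v (Ioo (x - ε) (x + ε)) ∩ Iic K).ncard : ℝ) /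
      (Gen Γ ∩ Iic K).ncard) atTop (𝓝 1) := by
  refine ⟨Unit, Fin 2, inferInstance, inferInstance, inferInstance, Γ8, (), 2,
    ⟨fun u w => Relation.EqvGen.refl _, fun v => Or.inr (by rw [deg8]; norm_num)⟩, ?_,
    by rw [deg8]; norm_num, ?_, gen_fin, fun k f h => gen_rho h, ?_⟩
  · change LinearIndependent ℚ ![(1 : ℝ), √2]
    rw [LinearIndependent.pair_iff]
    intro s t h
    by_cases ht : t = 0
    · subst ht; simpa using h
    · exfalso
      apply irrational_sqrt_two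
      refine ⟨-s / t, ?_⟩
      have : (t : ℝ) ≠ 0 := by exact_mod_cast ht
      simp only [Rat.smul_def] at h
      push_cast
      field_simp
      linarith
  · exact Set.infinite_of_injective_forall_mem (f := fun m => κ (m + 1))
      (κ_mono.injective.comp (add_left_injective 1)) fun m => κ_gen _ (Nat.succ_pos m)
  · intro ε hε
    have e : GenIn Γ8 () (Ioo (2 - ε) (2 + ε)) = Gen Γ8 := by
      ext k
      exact ⟨fun ⟨f, h, _⟩ => ⟨f, h⟩, fun ⟨f, h⟩ =>
        ⟨f, h, by rw [gen_rho h]; constructor <;> linarith⟩⟩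
    rw [e]
    apply tendsto_const_nhds.congr'
    filter_upwards [eventually_ge_atTop (κ 1)] with K hK
    have : 0 < (Gen Γ8 ∩ Iic K).ncard :=
      (Set.ncard_pos (gen_fin K)).2 ⟨κ 1, κ_gen 1 one_pos, hK⟩
    rw [div_self (by exact_mod_cast this.ne')]

end Pool.Agent.Results.MP_ecbb05_mp.No
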